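import Pool.Agent.N641.VB.Stm2

set_option autoImplicit false

/-!
# VB/TM2: formulas are tame
-/

namespace Pool.Agent.N232.VB

open FirstOrder FirstOrder.Language
open Pool.Agent.N641.VB

/-- uniform predicates on tuples indexed by any type -/
def UP (M ι : Type) : Type 1 := ∀ (A : Type) [BooleanAlgebra A], (A → M) → (ι → A) → Prop

/-- tame predicates on tuples indexed by any type -/
def TI {M : Type} [AddCommMonoid M] {ι : Type} (Q : UP M ι) : Prop :=
  ∀ (m : ℕ) (g : ι → Fin m), Tame (M := M) (n := m) (fun A _ mu p => Q A mu (fun i => p (g i)))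

section

variable {M : Type} [AddCommMonoid M]

theorem TI.congr {ι : Type} {Q Q' : UP M ι}
    (h : ∀ (A : Type) [BooleanAlgebra A] (mu : A → M) (x : ι → A), Q A mu x ↔ Q' A mu x)
    (hQ : TI Q) : TI Q' := by
  have e : Q = Q' := by
    funext A inst mu x
    exact propext (@h A inst mu x)
  rw [← e]
  exact hQ

theorem TI.re {ι κ : Type} {Q : UP M ι} (hQ : TI Q) (h : ι → κ) :
    TI (M := M) (ι := κ) (fun A _ mu x => Q A mu (fun i => x (h i))) :=
  fun m g => hQ m (fun i => g (h i))

variable (H : S_TM1)

include H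

/-- from predicates on tuples -/
theorem of_tame {n : ℕ} {Q : UPr M n} (hQ : Tame Q) : TI (M := M) (ι := Fin n) Q :=
  fun m g => (H M).2.2.2.2.2 n m g Q hQ

theorem ti_le {ι : Type} (i j : ι) : TI (M := M) (ι := ι) (fun _ _ _ x => x i ≤ x j) :=
  fun m g => (H M).1 m (g i) (g j)

theorem ti_false (ι : Type) : TI (M := M) (ι := ι) (fun _ _ _ _ => False) :=
  fun m _ => (H M).2.2.1 m

theorem ti_imp {ι : Type} {Q Q' : UP M ι} (h : TI Q) (h' : TI Q') :
    TI (M := M) (ι := ι) (fun A _ mu x => Q A mu x → Q' A mu x) :=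
  fun m g => (H M).2.2.2.1 m _ _ (h m g) (h' m g)

theorem ti_not {ι : Type} {Q : UP M ι} (h : TI Q) :
    TI (M := M) (ι := ι) (fun A _ mu x => ¬ Q A mu x) :=
  ti_imp H h (ti_false H ι)

theorem ti_and {ι : Type} {Q Q' : UP M ι} (h : TI Q) (h' : TI Q') :
    TI (M := M) (ι := ι) (fun A _ mu x => Q A mu x ∧ Q' A mu x) := by
  refine TI.congr ?_ (ti_not H (ti_imp H h (ti_not H h')))
  intro A _ mu x
  constructor
  · intro h1
    by_contra h2
    exact h1 fun h3 h4 => h2 ⟨h3, h4⟩
  · intro h1 h2
    exact h2 h1.1 h1.2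

theorem ti_eq {ι : Type} (i j : ι) : TI (M := M) (ι := ι) (fun _ _ _ x => x i = x j) := by
  refine TI.congr ?_ (ti_and H (ti_le H i j) (ti_le H j i))
  intro A _ mu x
  exact ⟨fun h => le_antisymm h.1 h.2, fun h => ⟨h.le, h.ge⟩⟩

/-- one universal quantifier -/
theorem ti_all {ι : Type} {Q : UP M (Option ι)} (h : TI Q) :
    TI (M := M) (ι := ι) (fun A _ mu x => ∀ b : A, Q A mu (fun o => o.elim b x)) := by
  intro m g
  have h1 := (H M).2.2.2.2.1 m _ (h (m + 1) (fun o => o.elim (Fin.last m) fun i => (g i).castSucc))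
  have e : (fun (A : Type) [BooleanAlgebra A] (mu : A → M) (p : Fin m → A) => ∀ b : A,
      Q A mu (fun i => (Fin.snoc p b : Fin (m + 1) → A) (i.elim (Fin.last m) fun i =>
        (g i).castSucc))) = fun (A : Type) [BooleanAlgebra A] (mu : A → M) (p : Fin m → A) =>
          ∀ b : A, Q A mu (fun o => o.elim b fun i => p (g i)) := by
    funext A inst mu p
    refine forall_congr fun b => ?_
    congr 1
    funext o
    cases o with
    | none => simp
    | some i => simp
  rw [← e]
  exact h1

/-- several universal quantifiers -/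
theorem ti_alls (l : ℕ) : ∀ {ι : Type} {Q : UP M (ι ⊕ Fin l)}, TI Q →
    TI (M := M) (ι := ι) (fun A _ mu x => ∀ y : Fin l → A, Q A mu (Sum.elim x y)) := by
  induction l with
  | zero =>
    intro ι Q h
    have h1 := h.re (κ := ι) (fun o => o.elim id fun j => j.elim0)
    refine TI.congr ?_ h1
    intro A _ mu x
    have e : ∀ y : Fin 0 → A, (fun o : ι ⊕ Fin 0 => x (o.elim id fun j => j.elim0)) =
        Sum.elim x y := by
      intro y
      funext o
      cases o with
      | inl i => rfl
      | inr j => exact j.elim0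
    constructor
    · intro h2 y
      rw [← e y]
      exact h2
    · intro h2
      rw [e (fun j => j.elim0)]
      exact h2 _
  | succ l ih =>
    intro ι Q h
    have h1 := h.re (κ := Option ι ⊕ Fin l) (fun o => o.elim (fun i => Sum.inl (some i))
      (fun j => Fin.cases (Sum.inl none) (fun j => Sum.inr j) j))
    refine TI.congr ?_ (ti_all H (ih h1))
    intro A _ mu x
    have e : ∀ (b : A) (y : Fin l → A), (fun i : ι ⊕ Fin (l + 1) =>
        Sum.elim (fun o : Option ι => o.elim b x) y (i.elim (fun i => Sum.inl (some i))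
          (fun j => Fin.cases (Sum.inl none) (fun j => Sum.inr j) j))) =
        Sum.elim x (Fin.cons b y : Fin (l + 1) → A) := by
      intro b y
      funext o
      cases o with
      | inl i => rfl
      | inr j =>
        refine Fin.cases ?_ (fun j => ?_) j
        · simp
        · simp
    constructor
    · intro h2 y
      have h3 := h2 (y 0) (fun j => y j.succ)
      rw [e] at h3
      have e2 : (Fin.cons (y 0) (fun j => y j.succ) : Fin (l + 1) → A) = y := Fin.cons_self_tail y
      rw [e2] at h3
      exact h3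
    · intro h2 b y
      rw [e]
      exact h2 _

theorem ti_exs (l : ℕ) {ι : Type} {Q : UP M (ι ⊕ Fin l)} (h : TI Q) :
    TI (M := M) (ι := ι) (fun A _ mu x => ∃ y : Fin l → A, Q A mu (Sum.elim x y)) := by
  refine TI.congr ?_ (ti_not H (ti_alls H l (ti_not H h)))
  intro A _ mu x
  exact not_forall_not

theorem ti_fa (l : ℕ) {ι : Type} : ∀ {Q : Fin l → UP M ι}, (∀ j, TI (Q j)) →
    TI (M := M) (ι := ι) (fun A _ mu x => ∀ j, Q j A mu x) := by
  induction l with
  | zero =>
    intro Q _
    refine TI.congr ?_ (ti_not H (ti_false H ι))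
    intro A _ mu x
    exact ⟨fun _ j => j.elim0, fun _ h => h⟩
  | succ l ih =>
    intro Q h
    refine TI.congr ?_ (ti_and H (h 0) (ih (Q := fun j => Q j.succ) fun j => h j.succ))
    intro A _ mu x
    exact (Fin.forall_fin_succ (P := fun j => Q j A mu x)).symm

end

section

variable {M : Type} [AddCommMonoid M] (H : S_TM1) {L : FirstOrder.Language.{0, 0}} {n : ℕ}
  (J : ∀ (A : Type) [BooleanAlgebra A], (A → M) → (Fin n → A) → L.Structure A)

include H

theorem rel_ti (hR : ∀ (l : ℕ) (R : L.Relations l), Tame (M := M) (n := n + l) (fun A _ mu x =>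
    @Structure.RelMap L A (J A mu (fun i => x (Fin.castAdd l i))) l R
      (fun j => x (Fin.natAdd n j)))) {K : Type} (par : Fin n → K) {l : ℕ} (R : L.Relations l)
    (ys : Fin l → K) : TI (M := M) (ι := K) (fun A _ mu x =>
      @Structure.RelMap L A (J A mu (fun i => x (par i))) l R (fun j => x (ys j))) := by
  intro m g
  have h1 := (H M).2.2.2.2.2 (n + l) m (Fin.addCases (fun i => g (par i)) (fun j => g (ys j))) _
    (hR l R)
  have e : (fun (A : Type) [BooleanAlgebra A] (mu : A → M) (p : Fin m → A) =>
      @Structure.RelMap L A (J A mu (fun i => (p ∘ (Fin.addCases (fun i => g (par i))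
        (fun j => g (ys j)) : Fin (n + l) → Fin m)) (Fin.castAdd l i))) l R
      (fun j => (p ∘ (Fin.addCases (fun i => g (par i))
        (fun j => g (ys j)) : Fin (n + l) → Fin m)) (Fin.natAdd n j))) =
      fun (A : Type) [BooleanAlgebra A] (mu : A → M) (p : Fin m → A) =>
      @Structure.RelMap L A (J A mu (fun i => p (g (par i)))) l R (fun j => p (g (ys j))) := by
    funext A inst mu p
    have e1 : (fun i => (p ∘ (Fin.addCases (fun i => g (par i))
        (fun j => g (ys j)) : Fin (n + l) → Fin m)) (Fin.castAdd l i)) =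
        fun i => p (g (par i)) := by
      funext i
      simp
    have e2 : (fun j => (p ∘ (Fin.addCases (fun i => g (par i))
        (fun j => g (ys j)) : Fin (n + l) → Fin m)) (Fin.natAdd n j)) =
        fun j => p (g (ys j)) := by
      funext i
      simp
    rw [e1, e2]
  show Tame (fun (A : Type) [BooleanAlgebra A] (mu : A → M) (p : Fin m → A) =>
      @Structure.RelMap L A (J A mu (fun i => p (g (par i)))) l R (fun j => p (g (ys j))))
  rw [← e]
  exact h1

theorem fun_ti (hF : ∀ (l : ℕ) (F : L.Functions l), Tame (M := M) (n := n + (l + 1))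
    (fun A _ mu x => @Structure.funMap L A (J A mu (fun i => x (Fin.castAdd (l + 1) i))) l F
      (fun j => x (Fin.natAdd n j.castSucc)) = x (Fin.natAdd n (Fin.last l)))) {K : Type}
    (par : Fin n → K) {l : ℕ} (F : L.Functions l) (ys : Fin l → K) (c : K) :
    TI (M := M) (ι := K) (fun A _ mu x =>
      @Structure.funMap L A (J A mu (fun i => x (par i))) l F (fun j => x (ys j)) = x c) := by
  intro m g
  have h1 := (H M).2.2.2.2.2 (n + (l + 1)) m (Fin.addCases (fun i => g (par i))
    (Fin.snoc (fun j => g (ys j)) (g c) : Fin (l + 1) → Fin m)) _ (hF l F)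
  obtain ⟨G, hG⟩ : ∃ G : Fin (n + (l + 1)) → Fin m, G = Fin.addCases (fun i => g (par i))
    (Fin.snoc (fun j => g (ys j)) (g c) : Fin (l + 1) → Fin m) := ⟨_, rfl⟩
  rw [← hG] at h1
  have e : (fun (A : Type) [BooleanAlgebra A] (mu : A → M) (p : Fin m → A) =>
      @Structure.funMap L A (J A mu (fun i => (p ∘ G) (Fin.castAdd (l + 1) i))) l F
      (fun j => (p ∘ G) (Fin.natAdd n j.castSucc)) = (p ∘ G) (Fin.natAdd n (Fin.last l))) =
      fun (A : Type) [BooleanAlgebra A] (mu : A → M) (p : Fin m → A) =>
      @Structure.funMap L A (J A mu (fun i => p (g (par i)))) l F (fun j => p (g (ys j))) =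
        p (g c) := by
    funext A inst mu p
    have e1 : (fun i => (p ∘ G) (Fin.castAdd (l + 1) i)) = fun i => p (g (par i)) := by
      funext i
      rw [hG]
      simp
    have e2 : (fun j : Fin l => (p ∘ G) (Fin.natAdd n j.castSucc)) = fun j => p (g (ys j)) := by
      funext i
      rw [hG, Function.comp_apply, Fin.addCases_right, Fin.snoc_castSucc]
    have e3 : (p ∘ G) (Fin.natAdd n (Fin.last l)) = p (g c) := by
      rw [hG, Function.comp_apply, Fin.addCases_right, Fin.snoc_last]
    rw [e1, e2, e3]
  show Tame (fun (A : Type) [BooleanAlgebra A] (mu : A → M) (p : Fin m → A) =>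
      @Structure.funMap L A (J A mu (fun i => p (g (par i)))) l F (fun j => p (g (ys j))) =
        p (g c))
  rw [← e]
  exact h1

theorem term_ti (hF : ∀ (l : ℕ) (F : L.Functions l), Tame (M := M) (n := n + (l + 1))
    (fun A _ mu x => @Structure.funMap L A (J A mu (fun i => x (Fin.castAdd (l + 1) i))) l F
      (fun j => x (Fin.natAdd n j.castSucc)) = x (Fin.natAdd n (Fin.last l)))) {ι : Type}
    (t : L.Term ι) : ∀ {K : Type} (par : Fin n → K) (var : ι → K) (c : K),
    TI (M := M) (ι := K) (fun A _ mu x =>
      @Term.realize L A (J A mu (fun i => x (par i))) ι (fun i => x (var i)) t = x c) := by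
  induction t with
  | var i =>
    intro K par var c
    exact ti_eq H (var i) c
  | @func l F ts ih =>
    intro K par var c
    have h1 : ∀ j, TI (M := M) (ι := K ⊕ Fin l) (fun A _ mu x =>
        @Term.realize L A (J A mu (fun i => x (Sum.inl (par i)))) ι
          (fun i => x (Sum.inl (var i))) (ts j) = x (Sum.inr j)) := fun j =>
      ih j (fun i => Sum.inl (par i)) (fun i => Sum.inl (var i)) (Sum.inr j)
    have h2 := fun_ti H J hF (K := K ⊕ Fin l) (fun i => Sum.inl (par i)) F
      (fun j => Sum.inr j) (Sum.inl c)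
    refine TI.congr ?_ (ti_exs H l (ti_and H (ti_fa H l h1) h2))
    intro A _ mu x
    constructor
    · rintro ⟨y, h3, h4⟩
      have e : (fun j => @Term.realize L A (J A mu (fun i => x (par i))) ι
          (fun i => x (var i)) (ts j)) = y := funext h3
      show @Structure.funMap L A (J A mu (fun i => x (par i))) l F
        (fun j => @Term.realize L A (J A mu (fun i => x (par i))) ι
          (fun i => x (var i)) (ts j)) = x c
      rw [e]
      exact h4
    · intro h3
      exact ⟨_, fun j => rfl, h3⟩

theorem form_ti (hR : ∀ (l : ℕ) (R : L.Relations l), Tame (M := M) (n := n + l)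
    (fun A _ mu x => @Structure.RelMap L A (J A mu (fun i => x (Fin.castAdd l i))) l R
      (fun j => x (Fin.natAdd n j))))
    (hF : ∀ (l : ℕ) (F : L.Functions l), Tame (M := M) (n := n + (l + 1))
    (fun A _ mu x => @Structure.funMap L A (J A mu (fun i => x (Fin.castAdd (l + 1) i))) l F
      (fun j => x (Fin.natAdd n j.castSucc)) = x (Fin.natAdd n (Fin.last l)))) {α : Type} {j : ℕ}
    (φ : L.BoundedFormula α j) : ∀ {K : Type} (par : Fin n → K) (var : α → K) (xs : Fin j → K),
    TI (M := M) (ι := K) (fun A _ mu x =>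
      @BoundedFormula.Realize L A (J A mu (fun i => x (par i))) α j φ (fun i => x (var i))
        (fun i => x (xs i))) := by
  have es : ∀ {A K : Type} {j : ℕ} (x : K → A) (var : α → K) (xs : Fin j → K),
      (fun i => x (Sum.elim var xs i)) = Sum.elim (fun i => x (var i)) (fun i => x (xs i)) := by
    intro A K j x var xs
    funext i
    cases i with
    | inl i => rfl
    | inr i => rfl
  induction φ with
  | falsum =>
    intro K par var xs
    exact ti_false H K
  | @equal j t₁ t₂ =>
    intro K par var xs
    have h1 := term_ti H J hF t₁ (K := K ⊕ Fin 1) (fun i => Sum.inl (par i))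
      (fun i => Sum.inl (Sum.elim var xs i)) (Sum.inr 0)
    have h2 := term_ti H J hF t₂ (K := K ⊕ Fin 1) (fun i => Sum.inl (par i))
      (fun i => Sum.inl (Sum.elim var xs i)) (Sum.inr 0)
    refine TI.congr ?_ (ti_exs H 1 (ti_and H h1 h2))
    intro A _ mu x
    show (∃ y : Fin 1 → A, @Term.realize L A (J A mu (fun i => x (par i))) _
        (fun i => x (Sum.elim var xs i)) t₁ = y 0 ∧
        @Term.realize L A (J A mu (fun i => x (par i))) _
        (fun i => x (Sum.elim var xs i)) t₂ = y 0) ↔
      @Term.realize L A (J A mu (fun i => x (par i))) _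
        (Sum.elim (fun i => x (var i)) (fun i => x (xs i))) t₁ =
      @Term.realize L A (J A mu (fun i => x (par i))) _
        (Sum.elim (fun i => x (var i)) (fun i => x (xs i))) t₂
    rw [es]
    constructor
    · rintro ⟨y, h3, h4⟩
      rw [h3, h4]
    · intro h3
      exact ⟨fun _ => _, rfl, h3.symm⟩
  | @rel j l R ts =>
    intro K par var xs
    have h1 : ∀ i, TI (M := M) (ι := K ⊕ Fin l) (fun A _ mu x =>
        @Term.realize L A (J A mu (fun i => x (Sum.inl (par i)))) _
          (fun i => x (Sum.inl (Sum.elim var xs i))) (ts i) = x (Sum.inr i)) := fun i =>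
      term_ti H J hF (ts i) (K := K ⊕ Fin l) (fun i => Sum.inl (par i))
        (fun i => Sum.inl (Sum.elim var xs i)) (Sum.inr i)
    have h2 := rel_ti H J hR (K := K ⊕ Fin l) (fun i => Sum.inl (par i)) R (fun j => Sum.inr j)
    refine TI.congr ?_ (ti_exs H l (ti_and H (ti_fa H l h1) h2))
    intro A _ mu x
    show (∃ y : Fin l → A, (∀ i, @Term.realize L A (J A mu (fun i => x (par i))) _
        (fun i => x (Sum.elim var xs i)) (ts i) = y i) ∧
        @Structure.RelMap L A (J A mu (fun i => x (par i))) l R (fun i => y i)) ↔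
      @Structure.RelMap L A (J A mu (fun i => x (par i))) l R
        (fun i => @Term.realize L A (J A mu (fun i => x (par i))) _
        (Sum.elim (fun i => x (var i)) (fun i => x (xs i))) (ts i))
    rw [es]
    constructor
    · rintro ⟨y, h3, h4⟩
      rw [funext h3]
      exact h4
    · intro h3
      exact ⟨_, fun i => rfl, h3⟩
  | imp φ₁ φ₂ ih1 ih2 =>
    intro K par var xs
    exact ti_imp H (ih1 par var xs) (ih2 par var xs)
  | @all j φ ih =>
    intro K par var xs
    have h1 := ti_all H (ih (K := Option K) (fun i => some (par i)) (fun i => some (var i))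
      (Fin.snoc (fun i => some (xs i)) none : Fin (j + 1) → Option K))
    refine TI.congr ?_ h1
    intro A _ mu x
    show (∀ b : A, @BoundedFormula.Realize L A (J A mu (fun i => x (par i))) α (j + 1) φ
        (fun i => x (var i))
        (fun i => ((Fin.snoc (fun i => some (xs i)) none : Fin (j + 1) → Option K) i).elim b x)) ↔
      ∀ b : A, @BoundedFormula.Realize L A (J A mu (fun i => x (par i))) α (j + 1) φ
        (fun i => x (var i)) (Fin.snoc (fun i => x (xs i)) b)
    refine forall_congr' fun b => ?_
    have e : (fun i => ((Fin.snoc (fun i => some (xs i)) none : Fin (j + 1) → Option K) i).elim b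
        x) = (Fin.snoc (fun i => x (xs i)) b : Fin (j + 1) → A) := by
      funext i
      refine Fin.lastCases ?_ (fun i => ?_) i
      · simp
      · simp
    rw [e]

end

theorem TM2 (TM1 : S_TM1) : S_TM2 := by
  intro M _ L n J hR hF k φ
  have h1 := form_ti TM1 J hR hF φ (K := Fin (n + k)) (fun i => Fin.castAdd k i)
    (Sum.elim (fun i => Fin.castAdd k i) (fun j => Fin.natAdd n j)) (fun i => i.elim0)
    (n + k) id
  have e : (fun (A : Type) [BooleanAlgebra A] (mu : A → M) (x : Fin (n + k) → A) =>
      @BoundedFormula.Realize L A (J A mu (fun i => x (Fin.castAdd k i))) (Fin n ⊕ Fin k) 0 φ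
        (fun i => x (Sum.elim (fun i => Fin.castAdd k i) (fun j => Fin.natAdd n j) i))
        (fun i => x (i.elim0))) = fun (A : Type) [BooleanAlgebra A] (mu : A → M)
      (x : Fin (n + k) → A) =>
      @Formula.Realize L A (J A mu (fun i => x (Fin.castAdd k i))) _ φ
        (Sum.elim (fun i => x (Fin.castAdd k i)) (fun j => x (Fin.natAdd n j))) := by
    funext A inst mu x
    have e1 : (fun i => x (Sum.elim (fun i => Fin.castAdd k i) (fun j => Fin.natAdd n j) i)) =
        Sum.elim (fun i => x (Fin.castAdd k i)) (fun j => x (Fin.natAdd n j)) := by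
      funext i
      cases i with
      | inl i => rfl
      | inr i => rfl
    have e2 : (fun i : Fin 0 => x (i.elim0)) = (default : Fin 0 → A) := Subsingleton.elim _ _
    rw [e1, e2]
    rfl
  rw [← e]
  exact h1

end Pool.Agent.N232.VB
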